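import Pool.Agent.helper22.RG9.Spec2

/-!
# Row `rg9:PRK` (MP_a2a22c_al, project rg9): power representations
-/

set_option autoImplicit false

namespace Pool.Agent.RG9

open Matrix Pool.Agent.H48SL Pool.Agent.UG

theorem PRK_conj {D : Type} [Group D] (x y c : D) (hc : c = x * y * x⁻¹ * y⁻¹) (hy : c * y = y * c) (b : ℕ) :
    x * y ^ b * x⁻¹ = c ^ b * y ^ b := by
  have h1 : x * y * x⁻¹ = c * y := by
    rw [hc]
    group
  have h2 : (x * y * x⁻¹) ^ b = x * y ^ b * x⁻¹ := conj_pow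
  rw [← h2, h1]
  exact (show Commute c y from hy).mul_pow b

theorem PRK_pow {D : Type} [Group D] (x y c : D) (hc : c = x * y * x⁻¹ * y⁻¹) (hx : c * x = x * c) (hy : c * y = y * c) (a b : ℕ) :
    x ^ a * y ^ b * (x ^ a)⁻¹ = c ^ (a * b) * y ^ b := by
  induction a with
  | zero => simp
  | succ a ih =>
    have h3 : x ^ (a + 1) * y ^ b * (x ^ (a + 1))⁻¹ = x * (x ^ a * y ^ b * (x ^ a)⁻¹) * x⁻¹ := by
      rw [pow_succ', _root_.mul_inv_rev]
      simp only [mul_assoc]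
    have h5 : c ^ (a * b) * x = x * c ^ (a * b) := ((show Commute c x from hx).pow_left (a * b)).eq
    have h4 : x * (c ^ (a * b) * y ^ b) * x⁻¹ = c ^ (a * b) * (x * y ^ b * x⁻¹) := by
      rw [← mul_assoc x, ← h5]
      simp only [mul_assoc]
    rw [h3, ih, h4, PRK_conj x y c hc hy, ← mul_assoc, ← pow_add, add_mul, one_mul]

/-- Row PRK. -/
theorem PRK : PRK_stmt := by
  intro D _ n k K hk φ
  refine ⟨⟨fun x y hxy => ?_, fun x y c hc hx hy => ?_⟩, fun δ y => ?_⟩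
  · show φ ⟨(x * y) ^ k, hk _⟩ = φ ⟨x ^ k, hk x⟩ * φ ⟨y ^ k, hk y⟩
    rw [← map_mul]
    congr 1
    exact Subtype.ext ((show Commute x y from hxy).mul_pow k)
  · show φ ⟨x ^ k, hk x⟩ * φ ⟨y ^ k, hk y⟩ * (φ ⟨x ^ k, hk x⟩)⁻¹ * (φ ⟨y ^ k, hk y⟩)⁻¹ = φ ⟨c ^ k, hk c⟩ ^ k
    rw [← map_inv, ← map_inv, ← map_mul, ← map_mul, ← map_mul, ← map_pow]
    congr 1
    refine Subtype.ext ?_
    show x ^ k * y ^ k * (x ^ k)⁻¹ * (y ^ k)⁻¹ = (c ^ k) ^ k
    rw [PRK_pow x y c hc hx hy, mul_inv_cancel_right, pow_mul]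
  · rw [← map_inv, ← map_mul, ← map_mul]
    congr 1
    refine Subtype.ext ?_
    show ((δ : D) * y * (δ : D)⁻¹) ^ k = (δ : D) * y ^ k * (δ : D)⁻¹
    exact conj_pow

end Pool.Agent.RG9
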